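import Mathlib

set_option autoImplicit false

namespace Pool.Agent.Results.MP_05a6d5_al.Counter

/-- subtractive closure of an ideal of a commutative semiring -/
def scl {H : Type} [CommSemiring H] (I : Ideal H) : Ideal H where
  carrier := {h | ∃ i ∈ I, h + i ∈ I}
  add_mem' := by
    rintro a b ⟨i, hi, ha⟩ ⟨j, hj, hb⟩
    exact ⟨i + j, I.add_mem hi hj, by rw [add_add_add_comm]; exact I.add_mem ha hb⟩
  zero_mem' := ⟨0, I.zero_mem, by simp⟩
  smul_mem' := by
    rintro c a ⟨i, hi, ha⟩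
    exact ⟨c * i, I.mul_mem_left c hi, by rw [smul_eq_mul, ← mul_add]; exact I.mul_mem_left c ha⟩

open Polynomial

def Q (w : ℕ[X]) : Prop := (∀ n, n ≠ 0 → n ≠ 1 → n ≠ 4 → w.coeff n = 0) → w.coeff 1 = 0

lemma le_coeff (u v : ℕ[X]) (a b : ℕ) : u.coeff a * v.coeff b ≤ (u * v).coeff (a + b) := by
  rw [coeff_mul]
  exact Finset.single_le_sum (f := fun x : ℕ × ℕ => u.coeff x.1 * v.coeff x.2)
    (fun _ _ => Nat.zero_le _) (a := (a, b)) (by simp)

lemma ev (u : ℕ[X]) (h : ∀ n ≥ 5, u.coeff n = 0) : u.eval₂ (Nat.castRingHom ℤ) (-1) =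
    u.coeff 0 - u.coeff 1 + u.coeff 2 - u.coeff 3 + u.coeff 4 := by
  rw [eval₂_eq_sum_range' _ (n := 5) (by
    have : u.natDegree ≤ 4 := natDegree_le_iff_coeff_eq_zero.2 fun n hn => h n hn
    omega)]
  simp [Finset.sum_range_succ]; ring

lemma key (u v : ℕ[X]) (hu : u.eval₂ (Nat.castRingHom ℤ) (-1) = 0)
    (hv : v.eval₂ (Nat.castRingHom ℤ) (-1) = 0)
    (h : ∀ n, n ≠ 0 → n ≠ 1 → n ≠ 4 → (u * v).coeff n = 0) : u.coeff 0 * v.coeff 1 = 0 := by
  by_contra c
  obtain ⟨c1, c2⟩ := mul_ne_zero_iff.1 c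
  have z : ∀ a b, a + b ≠ 0 → a + b ≠ 1 → a + b ≠ 4 → u.coeff a = 0 ∨ v.coeff b = 0 :=
    fun a b h1 h2 h3 => mul_eq_zero.1 (Nat.le_zero.1 (h _ h1 h2 h3 ▸ le_coeff u v a b))
  rw [ev u fun n hn => (z n 1 (by omega) (by omega) (by omega)).resolve_right c2] at hu
  rw [ev v fun n hn => (z 0 n (by omega) (by omega) (by omega)).resolve_left c1] at hv
  have := z 1 1 (by omega) (by omega) (by omega)
  have := z 2 1 (by omega) (by omega) (by omega)
  have := z 4 1 (by omega) (by omega) (by omega)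
  have := z 0 2 (by omega) (by omega) (by omega)
  have := z 0 3 (by omega) (by omega) (by omega)
  have := z 3 0 (by omega) (by omega) (by omega)
  have := z 3 4 (by omega) (by omega) (by omega)
  omega

theorem result : ∃ (S₀ : Type) (_ : CommSemiring S₀) (_ : Nontrivial S₀),
    (∀ a b : S₀, a + b = 0 → a = 0 ∧ b = 0) ∧
    ∃ I J : Ideal (MvPolynomial (Fin 3) S₀), scl I * scl J ≠ scl (I * J) := by
  refine ⟨ℕ, inferInstance, inferInstance, by omega, ?_⟩
  set x : MvPolynomial (Fin 3) ℕ := MvPolynomial.X 0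
  refine ⟨Ideal.span {1 + x}, Ideal.span {1 + x}, fun e => ?_⟩
  let ψ : MvPolynomial (Fin 3) ℕ →ₐ[ℕ] ℕ[X] := MvPolynomial.aeval ![X, 1, 1]
  have hx : ψ x = X := by simp [ψ, x]
  have h1 : 3 + 4 * x + x ^ 4 ∈ scl (Ideal.span {1 + x} * Ideal.span {1 + x}) := by
    rw [Ideal.span_singleton_mul_span_singleton]
    exact ⟨2 * x * ((1 + x) * (1 + x)), Ideal.mem_span_singleton'.2 ⟨_, rfl⟩,
      Ideal.mem_span_singleton'.2 ⟨x ^ 2 + 3, by ring⟩⟩
  have h2 : ∀ u ∈ scl (Ideal.span {1 + x}), (ψ u).eval₂ (Nat.castRingHom ℤ) (-1) = 0 := by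
    have : ∀ u ∈ Ideal.span {1 + x}, (ψ u).eval₂ (Nat.castRingHom ℤ) (-1) = 0 := fun u hu => by
      obtain ⟨a, rfl⟩ := Ideal.mem_span_singleton'.1 hu
      simp [eval₂_mul, eval₂_add, hx]
    rintro u ⟨i, hi, hu⟩
    have t := this _ hu
    rwa [map_add, eval₂_add, this i hi, add_zero] at t
  rw [← e] at h1
  have : Q (ψ (3 + 4 * x + x ^ 4)) := by
    refine Submodule.mul_induction_on h1 (fun u hu v hv h => ?_) fun a b ha hb h => ?_
    · rw [map_mul] at h ⊢
      have k1 := key _ _ (h2 u hu) (h2 v hv) h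
      have k2 := key _ _ (h2 v hv) (h2 u hu) (by rwa [mul_comm])
      simp [coeff_mul, Finset.Nat.antidiagonal_succ, k1, mul_comm (coeff (ψ u) 1), k2]
    · simp only [map_add, coeff_add, Nat.add_eq_zero_iff] at h ⊢
      exact ⟨ha fun n a b c => (h n a b c).1, hb fun n a b c => (h n a b c).2⟩
  rw [show ψ (3 + 4 * x + x ^ 4) = C 3 + C 4 * X + X ^ 4 by simp [hx, map_ofNat]] at this
  have := this fun n a b c => by
    simp only [coeff_add, coeff_C_mul, coeff_X, coeff_X_pow, coeff_C]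
    simp [a, b.symm, c]
  simp only [coeff_add, coeff_C_mul, coeff_X, coeff_X_pow, coeff_C] at this
  simp at this

end Pool.Agent.Results.MP_05a6d5_al.Counter
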